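import Pool.Agent.TTC.StmtsF

set_option autoImplicit false

/-! Squad TTC, row PL6: chosen places over given primes. -/

open Polynomial NumberField

namespace Pool.Agent.TTC.H81

/-- the norm of a place over the prime `p` -/
theorem le_norm (K : Type) [Field K] [NumberField K] (v : FinitePlace K) (p : ℕ) (hp : p.Prime)
    (h : v (p : K) < 1) : (p : ℝ) ≤ Ideal.absNorm v.maximalIdeal.asIdeal := by
  have hmem : (p : 𝓞 K) ∈ v.maximalIdeal.asIdeal := by
    rw [← FinitePlace.norm_lt_one_iff_mem K v.maximalIdeal (p : 𝓞 K)]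
    have h5 := FinitePlace.norm_embedding_eq v (p : K)
    have h6 : ‖FinitePlace.embedding v.maximalIdeal (p : K)‖ < 1 := by
      rw [h5]
      exact h
    simpa using h6
  have hM : v.maximalIdeal.asIdeal ≠ ⊤ := v.maximalIdeal.isPrime.ne_top
  have hmem' : ((Ideal.absNorm v.maximalIdeal.asIdeal : ℕ) : 𝓞 K) ∈ v.maximalIdeal.asIdeal :=
    Ideal.absNorm_mem _
  have hdvd : p ∣ Ideal.absNorm v.maximalIdeal.asIdeal := by
    by_contra hnd
    have hco : IsCoprime (p : ℤ) (Ideal.absNorm v.maximalIdeal.asIdeal : ℤ) :=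
      Nat.isCoprime_iff_coprime.2 ((Nat.Prime.coprime_iff_not_dvd hp).2 hnd)
    obtain ⟨a, b, hab⟩ := hco
    refine hM ((Ideal.eq_top_iff_one _).2 ?_)
    have h1 : (1 : 𝓞 K) = (a : 𝓞 K) * (p : 𝓞 K) +
        (b : 𝓞 K) * ((Ideal.absNorm v.maximalIdeal.asIdeal : ℕ) : 𝓞 K) := by
      have := congrArg (Int.cast : ℤ → 𝓞 K) hab
      push_cast at this
      exact this.symm
    rw [h1]
    exact Ideal.add_mem _ (Ideal.mul_mem_left _ _ hmem) (Ideal.mul_mem_left _ _ hmem')
  have hpos : 0 < Ideal.absNorm v.maximalIdeal.asIdeal := by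
    rw [Nat.pos_iff_ne_zero, Ne, Ideal.absNorm_eq_zero_iff]
    exact v.maximalIdeal.ne_bot
  exact_mod_cast Nat.le_of_dvd hpos hdvd

theorem pl6 : Pl6Stmt := by
  classical
  intro K _ _ P Q hP
  rcases P.eq_empty_or_nonempty with rfl | ⟨p₀, hp₀⟩
  · exact ⟨∅, fun v hv => absurd hv (Finset.notMem_empty v), by simp⟩
  obtain ⟨v₀, -, -⟩ := (hP p₀ hp₀).2
  have hex : ∀ p : ℕ, ∃ v : FinitePlace K, p ∈ P → v (p : K) < 1 ∧ Q v := by
    intro p
    by_cases hp : p ∈ P
    · obtain ⟨v, hv⟩ := (hP p hp).2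
      exact ⟨v, fun _ => hv⟩
    · exact ⟨v₀, fun h => absurd h hp⟩
  choose v hv using hex
  have hinj : Set.InjOn v P := by
    intro p hp q hq hpq
    by_contra hne
    have h1 := (hv p hp).1
    have h2 := (hv q hq).1
    rw [← hpq] at h2
    have hco : IsCoprime (p : ℤ) (q : ℤ) :=
      Nat.isCoprime_iff_coprime.2 ((Nat.coprime_primes (hP p hp).1 (hP q hq).1).2 hne)
    obtain ⟨a, b, hab⟩ := hco
    have h3 : (1 : K) = (a : K) * (p : K) + (b : K) * (q : K) := by
      have := congrArg (Int.cast : ℤ → K) hab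
      push_cast at this
      exact this.symm
    have hint : ∀ n : ℤ, v p (n : K) ≤ 1 := by
      intro n
      have h4 := FinitePlace.norm_le_one K (v p).maximalIdeal (n : 𝓞 K)
      have h5 := FinitePlace.norm_embedding_eq (v p) (n : K)
      rw [← h5]
      simpa using h4
    have h6 : v p (1 : K) < 1 := by
      rw [h3]
      refine (FinitePlace.add_le (v p) _ _).trans_lt (max_lt ?_ ?_)
      · rw [map_mul]
        calc v p (a : K) * v p (p : K) ≤ 1 * v p (p : K) :=
              mul_le_mul_of_nonneg_right (hint a) (apply_nonneg _ _)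
          _ < 1 := by rw [one_mul]; exact h1
      · rw [map_mul]
        calc v p (b : K) * v p (q : K) ≤ 1 * v p (q : K) :=
              mul_le_mul_of_nonneg_right (hint b) (apply_nonneg _ _)
          _ < 1 := by rw [one_mul]; exact h2
    rw [map_one] at h6
    exact lt_irrefl _ h6
  refine ⟨P.image v, ?_, ?_⟩
  · intro w hw
    obtain ⟨p, hp, rfl⟩ := Finset.mem_image.1 hw
    exact (hv p hp).2
  · rw [Finset.sum_image hinj]
    refine Finset.sum_le_sum fun p hp => ?_
    refine Real.log_le_log ?_ (le_norm K (v p) p (hP p hp).1 (hv p hp).1)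
    exact_mod_cast (hP p hp).1.pos

end Pool.Agent.TTC.H81
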